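import Mathlib
import Pool.Agent.Q254.AGP.Stm

/-!
# Project AGP: counting the Fermat liars
-/

set_option autoImplicit false

open Finset
open scoped Classical

namespace Pool.Agent.Q110.AGP

open Pool.Agent.Q254.AGP

theorem exp_ : S_EXP := by
  intro M Q _ hQ a ha
  induction Q using Finset.induction_on with
  | empty => simp [Nat.modEq_one]
  | insert q Q hq ih =>
    rw [Finset.prod_insert hq] at ha ⊢
    have hcop : Nat.Coprime q (∏ q ∈ Q, q) := by
      apply Nat.Coprime.prod_right
      intro p hp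
      refine (Nat.coprime_primes (hQ q (mem_insert_self _ _)).1
        (hQ p (mem_insert_of_mem hp)).1).2 ?_
      rintro rfl
      exact hq hp
    refine (Nat.modEq_and_modEq_iff_modEq_mul hcop).1 ⟨?_, ?_⟩
    · obtain ⟨hqp, k, hk⟩ := hQ q (mem_insert_self _ _)
      have h1 : a.Coprime q := Nat.Coprime.coprime_mul_right_right ha
      have h2 := Nat.ModEq.pow_totient h1
      rw [Nat.totient_prime hqp] at h2
      rw [hk, pow_mul]
      simpa using h2.pow k
    · exact ih (fun p hp => hQ p (mem_insert_of_mem hp)) (Nat.Coprime.coprime_mul_left_right ha)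

theorem totient_bound (S : Finset ℕ) (T : ℕ) (hT : 0 < T) (hS : ∀ p ∈ S, p.Prime ∧ T < p) :
    (1 - (S.card : ℝ) / T) * ((∏ q ∈ S, q : ℕ) : ℝ) ≤ (Nat.totient (∏ q ∈ S, q) : ℝ) := by
  induction S using Finset.induction_on with
  | empty => simp
  | insert q S hq ih =>
    have ih' := ih (fun p hp => hS p (mem_insert_of_mem hp))
    obtain ⟨hqp, hTq⟩ := hS q (mem_insert_self _ _)
    have hcop : Nat.Coprime q (∏ q ∈ S, q) := by
      apply Nat.Coprime.prod_right
      intro p hp
      refine (Nat.coprime_primes hqp (hS p (mem_insert_of_mem hp)).1).2 ?_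
      rintro rfl
      exact hq hp
    rw [Finset.prod_insert hq, Nat.totient_mul hcop, Nat.totient_prime hqp,
      Finset.card_insert_of_notMem hq]
    push_cast [Nat.cast_sub hqp.one_lt.le]
    push_cast at ih'
    set n : ℝ := ∏ x ∈ S, (x : ℝ) with hn
    set f : ℝ := (Nat.totient (∏ q ∈ S, q) : ℝ)
    have hn0 : 0 ≤ n := Finset.prod_nonneg (fun x _ => Nat.cast_nonneg x)
    have hT' : (0 : ℝ) < T := by exact_mod_cast hT
    have hq1 : (1 : ℝ) ≤ q := by exact_mod_cast hqp.one_lt.le
    have hTq' : (T : ℝ) ≤ q := by exact_mod_cast hTq.le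
    have hs : (0 : ℝ) ≤ (S.card : ℝ) / T := by positivity
    have h1 : ((q : ℝ) - 1) * ((1 - (S.card : ℝ) / T) * n) ≤ ((q : ℝ) - 1) * f :=
      mul_le_mul_of_nonneg_left ih' (by linarith)
    have h2 : n ≤ (q : ℝ) * n / T := by
      rw [le_div_iff₀ hT']
      nlinarith
    have h3 : (1 - ((S.card : ℝ) + 1) / T) * (q * n)
        = (1 - (S.card : ℝ) / T) * (q * n) - (q : ℝ) * n / T := by
      field_simp
      ring
    rw [h3]
    have h4 : (1 - (S.card : ℝ) / T) * n ≤ n := by
      have : 0 ≤ (S.card : ℝ) / T * n := mul_nonneg hs hn0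
      linarith
    nlinarith

theorem cnt : S_CNT := by
  intro S T hT hne hS
  refine (totient_bound S T hT (fun p hp => ⟨(hS p hp).1, (hS p hp).2.1⟩)).trans ?_
  rw [Nat.totient_eq_card_coprime]
  norm_cast
  apply Finset.card_le_card
  intro a ha
  rw [Finset.mem_filter] at ha ⊢
  refine ⟨ha.1, ?_⟩
  have hn : 0 < (∏ q ∈ S, q) - 1 := by
    obtain ⟨p, hp⟩ := hne
    have h1 : p ∣ ∏ q ∈ S, q := Finset.dvd_prod_of_mem _ hp
    have h2 : 0 < ∏ q ∈ S, q := Finset.prod_pos (fun q hq => (hS q hq).1.pos)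
    have h3 := Nat.le_of_dvd h2 h1
    have h4 := (hS p hp).1.one_lt
    omega
  exact exp_ _ S hn (fun q hq => ⟨(hS q hq).1, (hS q hq).2.2⟩) a ha.2.symm

end Pool.Agent.Q110.AGP
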