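import Mathlib
import Pool.Agent.Q254.AGP.Stm

/-!
# Project AGP: Prachar's argument
-/

set_option autoImplicit false

open Finset
open scoped Classical

namespace Pool.Agent.Q110.AGP

open Pool.Agent.Q254.AGP

/-- three small primes different from `l` -/
theorem three_primes (l : ℕ) : ∃ r1 r2 r3 : ℕ, r1.Prime ∧ r2.Prime ∧ r3.Prime ∧ r1 ≠ r2 ∧
    r1 ≠ r3 ∧ r2 ≠ r3 ∧ l ≠ r1 ∧ l ≠ r2 ∧ l ≠ r3 ∧ r1 * r2 * r3 ≤ 105 := by
  by_cases h2 : l = 2
  · exact ⟨3, 5, 7, by norm_num, by norm_num, by norm_num, by norm_num, by norm_num, by norm_num,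
      by omega, by omega, by omega, by norm_num⟩
  by_cases h3 : l = 3
  · exact ⟨2, 5, 7, by norm_num, by norm_num, by norm_num, by norm_num, by norm_num, by norm_num,
      by omega, by omega, by omega, by norm_num⟩
  by_cases h5 : l = 5
  · exact ⟨2, 3, 7, by norm_num, by norm_num, by norm_num, by norm_num, by norm_num, by norm_num,
      by omega, by omega, by omega, by norm_num⟩
  exact ⟨2, 3, 5, by norm_num, by norm_num, by norm_num, by norm_num, by norm_num, by norm_num,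
      by omega, by omega, by omega, by norm_num⟩

theorem card_divisors_ppow {p : ℕ} (hp : p.Prime) (a : ℕ) : (p ^ a).divisors.card = a + 1 := by
  rw [Nat.divisors_prime_pow hp, Finset.card_map, Finset.card_range]

theorem card_three {r1 r2 r3 : ℕ} (h1 : r1.Prime) (h2 : r2.Prime) (h3 : r3.Prime)
    (h12 : r1 ≠ r2) (h13 : r1 ≠ r3) (h23 : r2 ≠ r3) (a : ℕ) :
    ((r1 * r2 * r3) ^ a).divisors.card = (a + 1) ^ 3 := by
  have c12 : Nat.Coprime (r1 ^ a) (r2 ^ a) := Nat.Coprime.pow _ _ ((Nat.coprime_primes h1 h2).2 h12)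
  have c13 : Nat.Coprime (r1 ^ a) (r3 ^ a) := Nat.Coprime.pow _ _ ((Nat.coprime_primes h1 h3).2 h13)
  have c23 : Nat.Coprime (r2 ^ a) (r3 ^ a) := Nat.Coprime.pow _ _ ((Nat.coprime_primes h2 h3).2 h23)
  rw [mul_pow, mul_pow, Nat.Coprime.card_divisors_mul (Nat.Coprime.mul_left c13 c23),
    Nat.Coprime.card_divisors_mul c12, card_divisors_ppow h1, card_divisors_ppow h2,
    card_divisors_ppow h3]
  ring

theorem pr (hPH : S_PH) : S_PR := by
  intro K c hK hc hPG C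
  obtain ⟨z0, hz0⟩ := hPG
  set B : ℝ := Real.log ((105 ^ 16 : ℕ) : ℝ) with hB
  have hB0 : 0 < B := by
    rw [hB]
    apply Real.log_pos
    norm_num
  set C' : ℝ := max C 1 with hC'
  have hC1 : 1 ≤ C' := le_max_right _ _
  set A : ℝ := (1 + K) * C' * B ^ 3 / c with hA
  refine ⟨max z0 (⌈Real.exp (max (A + 1) 1)⌉₊ + 3), fun z hz => ?_⟩
  have hzz0 : z0 ≤ z := (le_max_left _ _).trans hz
  have hz3 : 3 ≤ z := by
    have := (le_max_right z0 (⌈Real.exp (max (A + 1) 1)⌉₊ + 3)).trans hz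
    omega
  have hzpos : (0 : ℝ) < z := by exact_mod_cast (by omega : 0 < z)
  have hexp : Real.exp (max (A + 1) 1) ≤ z := by
    have h1 : Real.exp (max (A + 1) 1) ≤ (⌈Real.exp (max (A + 1) 1)⌉₊ : ℝ) := Nat.le_ceil _
    have h2 : ⌈Real.exp (max (A + 1) 1)⌉₊ ≤ z := by
      have := (le_max_right z0 (⌈Real.exp (max (A + 1) 1)⌉₊ + 3)).trans hz
      omega
    exact h1.trans (by exact_mod_cast h2)
  have hlog : max (A + 1) 1 ≤ Real.log z := (Real.le_log_iff_exp_le hzpos).2 hexp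
  have hx1 : 1 ≤ Real.log z := (le_max_right _ _).trans hlog
  have hxA : A < Real.log z := by
    have := (le_max_left (A + 1) 1).trans hlog
    linarith
  obtain ⟨l, hl, hPl⟩ := hz0 z hzz0
  obtain ⟨r1, r2, r3, h1, h2, h3, h12, h13, h23, n1, n2, n3, hr⟩ := three_primes l
  set a : ℕ := Nat.log (105 ^ 16) z with ha
  have ha1 : (105 ^ 16) ^ a ≤ z := Nat.pow_log_le_self _ (by omega)
  have ha2 : z < (105 ^ 16) ^ (a + 1) := Nat.lt_pow_succ_log_self (by norm_num) z
  set r : ℕ := r1 * r2 * r3 with hrdef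
  have hrpos : 0 < r := Nat.mul_pos (Nat.mul_pos h1.pos h2.pos) h3.pos
  have hra : r ^ a ≤ 105 ^ a := Nat.pow_le_pow_left hr a
  have hrapos : 0 < r ^ a := Nat.pow_pos hrpos
  have h105 : 105 ^ a ≤ z := by
    refine le_trans ?_ ha1
    rw [← pow_mul]
    exact Nat.pow_le_pow_right (by norm_num) (by omega)
  set D : Finset ℕ := (r ^ a).divisors with hD
  have hDcard : D.card = (a + 1) ^ 3 := card_three h1 h2 h3 h12 h13 h23 a
  have hDpos : ∀ d ∈ D, 0 < d := fun d hd => Nat.pos_of_mem_divisors hd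
  have hDne : D.Nonempty := ⟨1, by rw [hD, Nat.mem_divisors]; exact ⟨one_dvd _, hrapos.ne'⟩⟩
  have hDl : ∀ d ∈ D, ¬ l ∣ d := by
    intro d hd hld
    have hdr : d ∣ r ^ a := (Nat.mem_divisors.1 hd).1
    have h4 : l ∣ r := hl.dvd_of_dvd_pow (hld.trans hdr)
    rw [hrdef] at h4
    rcases (Nat.Prime.dvd_mul hl).1 h4 with h5 | h5
    · rcases (Nat.Prime.dvd_mul hl).1 h5 with h6 | h6
      · exact n1 ((Nat.prime_dvd_prime_iff_eq hl h1).1 h6)
      · exact n2 ((Nat.prime_dvd_prime_iff_eq hl h2).1 h6)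
    · exact n3 ((Nat.prime_dvd_prime_iff_eq hl h3).1 h5)
  have hD16 : ∀ d ∈ D, d ^ 16 ≤ z := by
    intro d hd
    have hdr : d ≤ r ^ a := Nat.le_of_dvd hrapos (Nat.mem_divisors.1 hd).1
    calc d ^ 16 ≤ (105 ^ a) ^ 16 := Nat.pow_le_pow_left (hdr.trans hra) 16
      _ = (105 ^ 16) ^ a := by rw [← pow_mul, ← pow_mul, mul_comm]
      _ ≤ z := ha1
  obtain ⟨k, hk0, hkX, hk⟩ := hPH z (z ^ K) D c (fun _ _ => True) (by omega) hc hDne hDpos (by
    intro d hd
    have h := hPl d (hDpos d hd) (hD16 d hd) (hDl d hd)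
    simpa using h)
  obtain ⟨F, hF, hk⟩ : ∃ F : Finset ℕ, (∀ d, d ∈ F ↔ d ∈ D ∧ ((d * k + 1).Prime ∧
      z < d * k + 1 ∧ d * k + 1 ≤ z ^ K ∧ True)) ∧
      c * (D.card : ℝ) ≤ (1 + Real.log ((z ^ K : ℕ) : ℝ)) * (F.card : ℝ) := by
    refine ⟨_, ?_, hk⟩
    intro d
    simp only [Finset.mem_filter]
  have hinj : Set.InjOn (fun d => d * k + 1) (F : Set ℕ) := by
    intro x _ y _ hxy
    have : x * k = y * k := Nat.succ_injective hxy
    exact Nat.eq_of_mul_eq_mul_right hk0 this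
  refine ⟨r ^ a * k, F.image (fun d => d * k + 1), Nat.mul_pos hrapos hk0, ?_, ?_, ?_⟩
  · calc r ^ a * k ≤ z * z ^ K := Nat.mul_le_mul (hra.trans h105) hkX
      _ = z ^ (K + 1) := by ring
  · intro q hq
    rw [Finset.mem_image] at hq
    obtain ⟨d, hd, rfl⟩ := hq
    rw [hF] at hd
    refine ⟨hd.2.1, hd.2.2.1, hd.2.2.2.1, ?_⟩
    rw [Nat.add_sub_cancel]
    exact Nat.mul_dvd_mul_right (Nat.mem_divisors.1 hd.1).1 k
  · rw [Finset.card_image_of_injOn hinj]
    have hx0 : 0 < Real.log z := by linarith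
    have hlt : Real.log z ≤ (a + 1 : ℝ) * B := by
      have h4 : (z : ℝ) ≤ (((105 ^ 16) ^ (a + 1) : ℕ) : ℝ) := by exact_mod_cast ha2.le
      have h5 := Real.log_le_log hzpos h4
      rw [Nat.cast_pow, Real.log_pow] at h5
      push_cast at h5 ⊢
      rw [hB]
      push_cast
      linarith
    have hFc : C' * Real.log z ≤ (F.card : ℝ) := by
      by_contra hcon
      push Not at hcon
      rw [hDcard, Nat.cast_pow (a + 1) 3, Nat.cast_pow z K, Real.log_pow, Nat.cast_add,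
        Nat.cast_one] at hk
      set x : ℝ := Real.log z with hx
      have h6 : x ^ 3 ≤ ((a + 1 : ℝ) * B) ^ 3 := pow_le_pow_left₀ hx0.le hlt 3
      have h7 : (1 + (K : ℝ) * x) * (F.card : ℝ) ≤ ((1 + K) * x) * (C' * x) := by
        apply mul_le_mul _ hcon.le (Nat.cast_nonneg _) (by positivity)
        nlinarith
      have h8 : c * (a + 1 : ℝ) ^ 3 ≤ ((1 + K) * x) * (C' * x) := hk.trans h7
      have h9 : c * x ^ 3 ≤ (((1 + K) * x) * (C' * x)) * B ^ 3 := by
        calc c * x ^ 3 ≤ c * (((a + 1 : ℝ) * B) ^ 3) := mul_le_mul_of_nonneg_left h6 hc.le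
          _ = (c * (a + 1 : ℝ) ^ 3) * B ^ 3 := by ring
          _ ≤ _ := mul_le_mul_of_nonneg_right h8 (by positivity)
      have h10 : c * x ≤ (1 + K) * C' * B ^ 3 := by
        have hx2 : 0 < x ^ 2 := by positivity
        nlinarith
      have h11 : x ≤ A := by
        rw [hA, le_div_iff₀ hc]
        linarith
      linarith
    exact (mul_le_mul_of_nonneg_right (le_max_left _ _) hx0.le).trans hFc

end Pool.Agent.Q110.AGP
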